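import Pool.Agent.H820.F3.Stm
import Pool.Graph.R_seed8.Helper366.IV.CP

set_option autoImplicit false

/-!
# F3 CSB: bounded solution of the inhomogeneous Cauchy–Riemann equation with compact support
-/

namespace Pool.Agent.H75.F3

open MeasureTheory Filter Topology Metric Set
open scoped ContDiff Convolution
open Pool.Agent.H820.F3 (db S_csb)

theorem integrableOn_inv (r : ℝ) : IntegrableOn (fun v : ℂ => v⁻¹) (ball 0 r) := by
  refine integrableOn_ball_of_norm_le_rpow (C := 1) (α := 1) ?_ ?_ ?_ ?_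
  · rw [Complex.finrank_real_complex]; norm_num
  · rw [Complex.finrank_real_complex]; norm_num
  · filter_upwards with x
    rw [Real.rpow_neg_one, one_mul, norm_inv]
  · exact (measurable_id.inv : Measurable fun v : ℂ => v⁻¹).aestronglyMeasurable

theorem integrableOn_ker (r : ℝ) :
    IntegrableOn (fun v : ℂ => (2 * Real.pi * v : ℂ)⁻¹) (ball 0 r) :=
  ((integrableOn_inv r).const_mul (2 * Real.pi : ℂ)⁻¹).congr (Eventually.of_forall fun v => by
    simp only [mul_inv])

theorem t_csb : S_csb := by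
  intro ψ h hc
  have hloc : LocallyIntegrable (fun v : ℂ => (2 * Real.pi * v : ℂ)⁻¹) := by
    intro x
    exact ⟨ball 0 (‖x‖ + 1), isOpen_ball.mem_nhds (by simp), integrableOn_ker _⟩
  let L := ContinuousLinearMap.mul ℝ ℂ
  refine ⟨(fun v : ℂ => (2 * Real.pi * v : ℂ)⁻¹) ⋆[L, volume] ψ,
    hc.contDiff_convolution_right L hloc h, fun z => ?_, ?_⟩
  · have h1 : ContDiff ℝ 1 ψ := h.of_le (by exact_mod_cast le_top)
    have hd := hc.hasFDerivAt_convolution_right L hloc h1 z
    have hcf : Continuous (fderiv ℝ ψ) := h1.continuous_fderiv one_ne_zero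
    have hcs : HasCompactSupport (fderiv ℝ ψ) := hc.fderiv ℝ
    unfold db
    rw [hd.fderiv, convolution_precompR_apply L hloc hcs hcf,
      convolution_precompR_apply L hloc hcs hcf]
    have hcomp : ∀ v : ℂ, HasCompactSupport fun a => fderiv ℝ ψ a v := fun v =>
      hcs.comp_left (g := fun T : ℂ →L[ℝ] ℂ => T v) (by simp)
    have hcont : ∀ v : ℂ, Continuous fun a => fderiv ℝ ψ a v := fun v =>
      hcf.clm_apply continuous_const
    have hint : ∀ v : ℂ, Integrable fun w : ℂ => (2 * Real.pi * w : ℂ)⁻¹ * fderiv ℝ ψ (z - w) v :=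
      fun v => (hcomp v).convolutionExists_right L hloc (hcont v) z
    have h2 := Pool.Agent.Helper366.IV.cauchy_pompeiu ψ h1 hc z
    rw [convolution_def, convolution_def]
    change (∫ w : ℂ, (2 * Real.pi * w : ℂ)⁻¹ * fderiv ℝ ψ (z - w) 1) +
      Complex.I * (∫ w : ℂ, (2 * Real.pi * w : ℂ)⁻¹ * fderiv ℝ ψ (z - w) Complex.I) = ψ z
    rw [← integral_const_mul, ← integral_add (hint 1) ((hint Complex.I).const_mul _)]
    have hpi : (Real.pi : ℂ) ≠ 0 := by exact_mod_cast Real.pi_ne_zero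
    have h3 : ∀ w : ℂ, (2 * Real.pi * w : ℂ)⁻¹ * fderiv ℝ ψ (z - w) 1 +
        Complex.I * ((2 * Real.pi * w : ℂ)⁻¹ * fderiv ℝ ψ (z - w) Complex.I) =
        (Real.pi : ℂ)⁻¹ * ((fderiv ℝ ψ (z - w) 1 +
          Complex.I * fderiv ℝ ψ (z - w) Complex.I) / 2 / w) := by
      intro w
      rw [mul_inv, mul_inv, div_eq_mul_inv, div_eq_mul_inv]
      ring
    simp only [h3]
    rw [integral_const_mul, h2, inv_mul_cancel_left₀ hpi]
  · obtain ⟨C, hC⟩ := hc.exists_bound_of_continuous h.continuous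
    have hC0 : 0 ≤ C := (norm_nonneg _).trans (hC 0)
    have hψ : Integrable (fun w => ‖ψ w‖) := (h.continuous.integrable_of_hasCompactSupport hc).norm
    have hK : Integrable ((ball (0 : ℂ) 1).indicator
        (fun v : ℂ => C * ‖(2 * Real.pi * v : ℂ)⁻¹‖)) := by
      rw [integrable_indicator_iff measurableSet_ball]
      exact (integrableOn_ker 1).norm.const_mul C
    refine ⟨(∫ v, (ball (0 : ℂ) 1).indicator (fun v : ℂ => C * ‖(2 * Real.pi * v : ℂ)⁻¹‖) v) +
      ∫ w, ‖ψ w‖, fun z => ?_⟩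
    rw [convolution_def]
    have hψz : Integrable (fun w => ‖ψ (z - w)‖) := hψ.comp_sub_left z
    have hEq : (∫ w, ‖ψ w‖) = ∫ w, ‖ψ (z - w)‖ := by
      rw [← integral_sub_left_eq_self (fun w => ‖ψ w‖) volume z]
    rw [hEq, ← integral_add hK hψz]
    refine norm_integral_le_of_norm_le (hK.add hψz) (Eventually.of_forall fun w => ?_)
    change ‖(2 * Real.pi * w : ℂ)⁻¹ * ψ (z - w)‖ ≤ _
    rw [norm_mul]
    by_cases hw : w ∈ ball (0 : ℂ) 1
    · rw [indicator_of_mem hw]
      have h1 := mul_le_mul_of_nonneg_left (hC (z - w)) (norm_nonneg ((2 * Real.pi * w : ℂ)⁻¹))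
      have h2 := norm_nonneg (ψ (z - w))
      linarith [mul_comm C ‖(2 * Real.pi * w : ℂ)⁻¹‖]
    · rw [indicator_of_notMem hw, zero_add]
      refine mul_le_of_le_one_left (norm_nonneg _) ?_
      have h1 : 1 ≤ ‖w‖ := by simpa using hw
      rw [norm_inv]
      refine inv_le_one_of_one_le₀ ?_
      rw [norm_mul, norm_mul, Complex.norm_real, Complex.norm_ofNat, Real.norm_eq_abs,
        abs_of_pos Real.pi_pos]
      have h3 : (1 : ℝ) ≤ 2 * Real.pi := by linarith [Real.pi_gt_three]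
      nlinarith

end Pool.Agent.H75.F3
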